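import Mathlib
import Pool.Agent.Helper73.TH.Defs

set_option autoImplicit false

/-! Project TH, piece TH-2: algebra of the curve. -/

namespace Pool.Agent.Helper73.TH

theorem curve_rho {ρ s β : ℝ} (h : Curve ρ s β) (hρ : 1 < ρ) :
    s * (s ^ 2 - 1) < ρ * ((s - 1) * β + 1 + s) := by
  obtain ⟨hs1, hs2, hb0, hb1, e1, e2⟩ := h
  have hp : 0 < (s - 1) * β := mul_pos (by linarith) hb0
  set p := (s - 1) * β with hpdef
  have e1' : p * (s * β + 1) = (s + 1) * (s ^ 2 - s - 1) := e1
  have e2' : p * (ρ * (1 + s) * β - (ρ - 1)) = (ρ - 1) * s * (1 + s) := e2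
  have hK : ρ * ((s * (1 + s) + p) - (1 + s) * β * p) = s * (1 + s) + p := by
    linear_combination (-1 : ℝ) * e2'
  have hK2 : 0 < s * (1 + s) + p := by positivity
  have hKd : 0 < (s * (1 + s) + p) - (1 + s) * β * p := by
    by_contra hcon
    push Not at hcon
    have : ρ * ((s * (1 + s) + p) - (1 + s) * β * p) ≤ 0 :=
      mul_nonpos_of_nonneg_of_nonpos (by linarith) hcon
    linarith
  have key : (s * (1 + s) + p) * (p + 1 + s)
      - s * (s ^ 2 - 1) * ((s * (1 + s) + p) - (1 + s) * β * p) = (s * β * p) ^ 2 := by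
    linear_combination ((s * (1 + s) + p) - s * β * p) * e1'
  have hpos : 0 < (s * β * p) ^ 2 := by positivity
  have h1 : s * (s ^ 2 - 1) * ((s * (1 + s) + p) - (1 + s) * β * p)
      < ρ * (p + 1 + s) * ((s * (1 + s) + p) - (1 + s) * β * p) := by
    calc s * (s ^ 2 - 1) * ((s * (1 + s) + p) - (1 + s) * β * p)
        < (s * (1 + s) + p) * (p + 1 + s) := by linarith
      _ = ρ * ((s * (1 + s) + p) - (1 + s) * β * p) * (p + 1 + s) := by rw [hK]
      _ = _ := by ring
  exact lt_of_mul_lt_mul_right h1 hKd.le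

theorem curve_pos_P2 {ρ s β : ℝ} (h : Curve ρ s β) : 0 < s ^ 2 - s - 1 := by
  obtain ⟨hs1, hs2, hb0, hb1, e1, e2⟩ := h
  have h1 : 0 < (s - 1) * β * (s * β + 1) := by
    have : 0 < s - 1 := by linarith
    positivity
  rw [e1] at h1
  exact pos_of_mul_pos_right h1 (by linarith)

/-- one plane: upper bound for `A`, lower bound for `x1` -/
theorem lemmaA {ρ s β : ℝ} (h : Curve ρ s β) (hρ : 1 < ρ) (x A d e x1 A1 : ℝ)
    (hx : 0 < x) (hA : 0 ≤ A) (hA1 : 0 ≤ A1) (hAx : ρ * A ≤ x) (hxx : x < x1)
    (h1 : x1 < (s - 1) * e)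
    (h2 : e < s * d - (1 + s) * x)
    (h3 : (ρ - 1) * (e + x1) < (s * ρ + 1) * x - (1 + s) * ρ * A)
    (h4 : d ≤ A + x1 ∨ (d ≤ A1 + x ∧ ρ * A1 ≤ x1)) :
    A < (1 - β) * x ∧ (1 + s) * x < β * x1 := by
  have hG : 0 < s ^ 2 - s - 1 := curve_pos_P2 h
  have hcr := curve_rho h hρ
  obtain ⟨hs1, hs2, hb0, hb1, e1, e2⟩ := h
  have ht : 0 < s - 1 := by linarith
  -- h3 multiplied by s - 1
  have hii : (ρ - 1) * s * x1 < (s - 1) * ((s * ρ + 1) * x - (1 + s) * ρ * A) := by
    have a1 : (ρ - 1) * (x1 + (s - 1) * x1) ≤ (ρ - 1) * ((s - 1) * e + (s - 1) * x1) :=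
      mul_le_mul_of_nonneg_left (by linarith) (by linarith)
    have a2 : (s - 1) * ((ρ - 1) * (e + x1)) < (s - 1) * ((s * ρ + 1) * x - (1 + s) * ρ * A) :=
      mul_lt_mul_of_pos_left h3 ht
    first | linarith | nlinarith
  rcases h4 with h4 | ⟨h4, h5⟩
  · -- Case I
    have hi : (s - 1) * ((1 + s) * x - s * A) < x1 * (s ^ 2 - s - 1) := by
      have a1 : (s - 1) * e < (s - 1) * (s * (A + x1) - (1 + s) * x) := by
        refine mul_lt_mul_of_pos_left ?_ ht
        have : s * d ≤ s * (A + x1) := mul_le_mul_of_nonneg_left h4 (by linarith)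
        linarith
      first | linarith | nlinarith
    -- combine
    have hc : (ρ - 1) * s * ((s - 1) * ((1 + s) * x - s * A))
        < (s ^ 2 - s - 1) * ((s - 1) * ((s * ρ + 1) * x - (1 + s) * ρ * A)) := by
      calc (ρ - 1) * s * ((s - 1) * ((1 + s) * x - s * A))
          < (ρ - 1) * s * (x1 * (s ^ 2 - s - 1)) :=
            mul_lt_mul_of_pos_left hi (mul_pos (by linarith) (by linarith))
        _ = (s ^ 2 - s - 1) * ((ρ - 1) * s * x1) := by ring
        _ < _ := mul_lt_mul_of_pos_left hii hG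
    have hLB : (1 + s) * ((1 + s) * ρ * (s ^ 2 - s - 1) - (ρ - 1) * s ^ 2)
        = (s - 1) * β * ((1 + 2 * s) * ρ - s) := by
      linear_combination (-(1 + s) * ρ) * e1 + s * e2
    have hRB : (1 + s) * ((s ^ 2 - s - 1) * (s * ρ + 1) - (ρ - 1) * s * (1 + s))
        = (1 - β) * ((s - 1) * β * ((1 + 2 * s) * ρ - s)) := by
      linear_combination (-(s * ρ + 1)) * e1 + (1 + s) * e2
    have hpos : 0 < (s - 1) * β * ((1 + 2 * s) * ρ - s) := by
      have : 0 < (1 + 2 * s) * ρ - s := by first | linarith | nlinarith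
      positivity
    have hc2 : A * ((s - 1) * β * ((1 + 2 * s) * ρ - s))
        < ((1 - β) * x) * ((s - 1) * β * ((1 + 2 * s) * ρ - s)) := by
      have hc3 : (s - 1) * (A * ((s - 1) * β * ((1 + 2 * s) * ρ - s)))
          < (s - 1) * (((1 - β) * x) * ((s - 1) * β * ((1 + 2 * s) * ρ - s))) := by
        have b1 := mul_lt_mul_of_pos_left hc (show (0 : ℝ) < 1 + s by linarith)
        have b2 : (s - 1) * (A * ((s - 1) * β * ((1 + 2 * s) * ρ - s)))
            = (s - 1) * A * ((1 + s) * ((1 + s) * ρ * (s ^ 2 - s - 1) - (ρ - 1) * s ^ 2)) := by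
          rw [hLB]; ring
        have b3 : (s - 1) * (((1 - β) * x) * ((s - 1) * β * ((1 + 2 * s) * ρ - s)))
            = (s - 1) * x * ((1 + s) *
              ((s ^ 2 - s - 1) * (s * ρ + 1) - (ρ - 1) * s * (1 + s))) := by
          rw [hRB]; ring
        rw [b2, b3]
        first | linarith | nlinarith
      exact lt_of_mul_lt_mul_left hc3 ht.le
    have hA' : A < (1 - β) * x := lt_of_mul_lt_mul_right hc2 hpos.le
    refine ⟨hA', ?_⟩
    have hi2 : (s - 1) * (1 + s * β) * x < x1 * (s ^ 2 - s - 1) := by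
      have : (s - 1) * (s * A) < (s - 1) * (s * ((1 - β) * x)) :=
        mul_lt_mul_of_pos_left (mul_lt_mul_of_pos_left hA' (by linarith)) ht
      first | linarith | nlinarith
    have hf : ((1 + s) * x) * (s ^ 2 - s - 1) < (β * x1) * (s ^ 2 - s - 1) := by
      calc ((1 + s) * x) * (s ^ 2 - s - 1) = β * ((s - 1) * (1 + s * β) * x) := by
            linear_combination (-x) * e1
        _ < β * (x1 * (s ^ 2 - s - 1)) := mul_lt_mul_of_pos_left hi2 hb0
        _ = _ := by ring
    exact lt_of_mul_lt_mul_right hf hG.le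
  · -- Case II
    have hρ0 : 0 < ρ := by linarith
    have hx1 : 0 < x1 := by linarith
    have hj : ρ * (s - 1) * x < x1 * (s * (s - 1) - ρ) := by
      have a1 : (s - 1) * e < (s - 1) * (s * A1 - x) := by
        refine mul_lt_mul_of_pos_left ?_ ht
        have : s * d ≤ s * (A1 + x) := mul_le_mul_of_nonneg_left h4 (by linarith)
        linarith
      have a2 : x1 < (s - 1) * (s * A1 - x) := by linarith
      have a3 : ρ * x1 < ρ * ((s - 1) * (s * A1 - x)) := mul_lt_mul_of_pos_left a2 hρ0
      have a4 : (s - 1) * s * (ρ * A1) ≤ (s - 1) * s * x1 :=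
        mul_le_mul_of_nonneg_left h5 (by positivity)
      first | linarith | nlinarith
    have hB : (1 + s) * x < β * x1 := by
      have b1 : ρ * (s - 1) * ((1 + s) * x) < ρ * (s - 1) * (β * x1) := by
        calc ρ * (s - 1) * ((1 + s) * x) = (1 + s) * (ρ * (s - 1) * x) := by ring
          _ < (1 + s) * (x1 * (s * (s - 1) - ρ)) := mul_lt_mul_of_pos_left hj (by linarith)
          _ = x1 * (s * (s ^ 2 - 1) - (1 + s) * ρ) := by ring
          _ ≤ x1 * (ρ * ((s - 1) * β)) := by
              refine mul_le_mul_of_nonneg_left ?_ hx1.le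
              first | linarith | nlinarith
          _ = _ := by ring
      exact lt_of_mul_lt_mul_left b1 (by positivity)
    refine ⟨?_, hB⟩
    -- h3 and e2
    have c1 : (ρ - 1) * s * ((1 + s) * x) < β * ((s - 1) * ((s * ρ + 1) * x - (1 + s) * ρ * A)) := by
      calc (ρ - 1) * s * ((1 + s) * x) < (ρ - 1) * s * (β * x1) :=
            mul_lt_mul_of_pos_left hB (mul_pos (by linarith) (by linarith))
        _ = β * ((ρ - 1) * s * x1) := by ring
        _ < _ := mul_lt_mul_of_pos_left hii hb0
    have c2 : (s - 1) * β * (ρ * (1 + s) * A) < (s - 1) * β * (ρ * (1 + s) * ((1 - β) * x)) := by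
      have : (ρ - 1) * s * ((1 + s) * x)
          = (s - 1) * β * (ρ * (1 + s) * β - (ρ - 1)) * x := by
        rw [e2]; ring
      rw [this] at c1
      first | linarith | nlinarith
    have c3 := lt_of_mul_lt_mul_left c2 (by positivity)
    exact lt_of_mul_lt_mul_left c3 (by positivity)

/-- two consecutive planes: lower bound for `Am` -/
theorem lemmaB {ρ s β : ℝ} (h : Curve ρ s β) (hρ : 1 < ρ) (x A d e x1 A1 μ Am An xn e' : ℝ)
    (hx : 0 < x) (hA : 0 ≤ A) (hAβ : A < (1 - β) * x) (hxx : (1 + s) * x < β * x1) (hμ : x1 ≤ μ)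
    (h1 : μ < (s - 1) * e)
    (h2 : e < s * d - (1 + s) * x)
    (h4 : d ≤ A + x1 ∨ (d ≤ A1 + x ∧ ρ * A1 ≤ x1))
    (hn : An ≤ μ) (hxn : (1 + s) * μ < β * xn) (h1' : xn < (s - 1) * e')
    (h5 : e < (s - 1) * d ∨ μ + e - s * d < Am ∨ e' + xn < An + s * d) :
    (1 - β) * μ < Am := by
  have hcr := curve_rho h hρ
  obtain ⟨hs1, hs2, hb0, hb1, e1, e2⟩ := h
  have ht : 0 < s - 1 := by linarith
  have ht1 : s - 1 ≤ 1 := by linarith
  have hx1 : 0 < x1 := by
    have : 0 < β * x1 := lt_trans (by positivity) hxx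
    exact pos_of_mul_pos_right this hb0.le
  have hμ0 : 0 < μ := by linarith
  have hxμ : (1 + s) * x < β * μ := lt_of_lt_of_le hxx (mul_le_mul_of_nonneg_left hμ hb0.le)
  have hx2 : 2 * x < μ := by first | linarith | nlinarith
  -- (*) 
  have star : s * (s + 1) * (2 - s) = (s - 1) * (1 - β) * (1 + s + s * β) := by
    linear_combination e1
  -- the left side of 5c
  have h5c : 6 * μ ≤ (e' + xn) := by
    have a1 : s * xn < (s - 1) * (e' + xn) := by linarith
    have a2 : s * ((1 + s) * μ) < s * xn := by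
      have hxnpos : 0 < xn := by
        have : 0 < β * xn := lt_trans (by positivity) hxn
        exact pos_of_mul_pos_right this hb0.le
      have : β * xn ≤ xn := by first | linarith | nlinarith
      exact mul_lt_mul_of_pos_left (by linarith) (by linarith)
    have a3 : (s - 1) * (6 * μ) ≤ s * ((1 + s) * μ) := by
      nlinarith [mul_nonneg (mul_nonneg (show (0:ℝ) ≤ 2 - s by linarith)
        (show (0:ℝ) ≤ 3 - s by linarith)) hμ0.le]
    have a4 : (s - 1) * (6 * μ) < (s - 1) * (e' + xn) := by linarith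
    exact (lt_of_mul_lt_mul_left a4 ht.le).le
  rcases h4 with h4 | ⟨h4, h4'⟩
  · -- Case I
    have hd : d ≤ A + μ := by linarith
    rcases h5 with h5 | h5 | h5
    · exfalso
      have a1 : μ < (s - 1) ^ 2 * (A + μ) := by
        calc μ < (s - 1) * e := h1
          _ < (s - 1) * ((s - 1) * d) := mul_lt_mul_of_pos_left h5 ht
          _ ≤ (s - 1) * ((s - 1) * (A + μ)) :=
            mul_le_mul_of_nonneg_left (mul_le_mul_of_nonneg_left hd ht.le) ht.le
          _ = _ := by ring
      have a2 : s * (2 - s) * μ < (s - 1) ^ 2 * A := by first | linarith | nlinarith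
      have hAx : A * (1 + s) ≤ (1 - β) * (β * μ) := by
        have b1 : A * (1 + s) ≤ ((1 - β) * x) * (1 + s) :=
          mul_le_mul_of_nonneg_right hAβ.le (by linarith)
        have b2 : (1 - β) * ((1 + s) * x) ≤ (1 - β) * (β * μ) :=
          mul_le_mul_of_nonneg_left hxμ.le (by linarith)
        first | linarith | nlinarith
      have a3 : (s - 1) * (1 - β) * (1 + s + s * β) * μ < (s - 1) ^ 2 * ((1 - β) * (β * μ)) := by
        calc (s - 1) * (1 - β) * (1 + s + s * β) * μ = (1 + s) * (s * (2 - s) * μ) := by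
              rw [← star]; ring
          _ < (1 + s) * ((s - 1) ^ 2 * A) := mul_lt_mul_of_pos_left a2 (by linarith)
          _ = (s - 1) ^ 2 * (A * (1 + s)) := by ring
          _ ≤ _ := mul_le_mul_of_nonneg_left hAx (by positivity)
      have a4 : 0 ≤ (s - 1) * (1 - β) * μ * (1 + s + s * β - (s - 1) * β) := by
        have c1 : 0 ≤ 1 + s + s * β - (s - 1) * β := by first | linarith | nlinarith
        have c2 : 0 ≤ (s - 1) * (1 - β) * μ :=
          mul_nonneg (mul_nonneg ht.le (by linarith)) hμ0.le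
        exact mul_nonneg c2 c1
      first | linarith | nlinarith
    · -- 5b
      refine lt_trans ?_ h5
      -- (1-β) μ < μ + e - s d
      have a1 : s * d ≤ s * (A + μ) := mul_le_mul_of_nonneg_left hd (by linarith)
      have hAx : A * (1 + s) ≤ (1 - β) * (β * μ) := by
        have b1 : A * (1 + s) ≤ ((1 - β) * x) * (1 + s) :=
          mul_le_mul_of_nonneg_right hAβ.le (by linarith)
        have b2 : (1 - β) * ((1 + s) * x) ≤ (1 - β) * (β * μ) :=
          mul_le_mul_of_nonneg_left hxμ.le (by linarith)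
        first | linarith | nlinarith
      have goal' : (s - 1) * (1 + s) * ((1 - β) * μ) < (s - 1) * (1 + s) * (μ + e - s * d) := by
        have c1 : (1 + s) * μ < (1 + s) * ((s - 1) * e) := mul_lt_mul_of_pos_left h1 (by linarith)
        have c2 : (s - 1) * (1 + s) * (s * d) ≤ (s - 1) * (1 + s) * (s * (A + μ)) :=
          mul_le_mul_of_nonneg_left a1 (by positivity)
        have c3 : (s - 1) * s * (A * (1 + s)) ≤ (s - 1) * s * ((1 - β) * (β * μ)) :=
          mul_le_mul_of_nonneg_left hAx (by positivity)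
        have c4 : (s - 1) * (1 + s) * ((1 - β) * μ)
            = (s - 1) * (1 + s) * μ + (1 + s) * μ - (s - 1) * s * ((1 - β) * (β * μ))
              - (s - 1) * (1 + s) * (s * μ) := by
          linear_combination (-μ) * e1
        first | linarith | nlinarith
      exact lt_of_mul_lt_mul_left goal' (by positivity)
    · exfalso
      have hAx : A < x := by first | linarith | nlinarith
      have a1 : s * d ≤ 2 * (A + μ) := by first | linarith | nlinarith
      linarith
  · -- Case II
    have hρ0 : 0 < ρ := by linarith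
    -- y = d - x
    have hy1 : d - x ≤ A1 := by linarith
    have hyρ : ρ * (d - x) ≤ μ := by
      have : ρ * (d - x) ≤ ρ * A1 := mul_le_mul_of_nonneg_left hy1 hρ0.le
      linarith
    have hxy : μ + (s - 1) * x < (s - 1) * (s * (d - x)) := by
      have : (s - 1) * e < (s - 1) * (s * d - (1 + s) * x) := mul_lt_mul_of_pos_left h2 ht
      first | linarith | nlinarith
    have hypos : 0 < d - x := by
      have b1 : 0 < (s - 1) * (s * (d - x)) := by
        have : 0 < (s - 1) * x := mul_pos ht hx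
        linarith
      have b2 : 0 < s * (d - x) := pos_of_mul_pos_right b1 ht.le
      exact pos_of_mul_pos_right b2 (by linarith)
    have hyμ : d - x < μ := by first | linarith | nlinarith
    rcases h5 with h5 | h5 | h5
    · exfalso
      have a1 : μ < (s - 1) ^ 2 * ((d - x) + x) := by
        calc μ < (s - 1) * e := h1
          _ < (s - 1) * ((s - 1) * d) := mul_lt_mul_of_pos_left h5 ht
          _ = _ := by ring
      have a2 : s * μ < (s - 1) ^ 2 * (1 + s) * (d - x) := by
        have : (s - 1) * (μ + (s - 1) * x) < (s - 1) * ((s - 1) * (s * (d - x))) :=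
          mul_lt_mul_of_pos_left hxy ht
        first | linarith | nlinarith
      have a3 : s * ρ < (s - 1) ^ 2 * (1 + s) := by
        have b1 : ρ * (s * μ) < ρ * ((s - 1) ^ 2 * (1 + s) * (d - x)) :=
          mul_lt_mul_of_pos_left a2 hρ0
        have b2 : (s - 1) ^ 2 * (1 + s) * (ρ * (d - x)) ≤ (s - 1) ^ 2 * (1 + s) * μ :=
          mul_le_mul_of_nonneg_left hyρ (by positivity)
        have b3 : (s * ρ) * μ < ((s - 1) ^ 2 * (1 + s)) * μ := by first | linarith | nlinarith
        exact lt_of_mul_lt_mul_right b3 hμ0.le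
      have a4 : s * (s * (s ^ 2 - 1)) < (s - 1) ^ 2 * (1 + s) * ((s - 1) * β + 1 + s) := by
        calc s * (s * (s ^ 2 - 1)) < s * (ρ * ((s - 1) * β + 1 + s)) :=
              mul_lt_mul_of_pos_left hcr (by linarith)
          _ = s * ρ * ((s - 1) * β + 1 + s) := by ring
          _ < _ := mul_lt_mul_of_pos_right a3 (by positivity)
      have a5 : ((s - 1) * (1 + s)) * (s ^ 2) <
          ((s - 1) * (1 + s)) * ((s - 1) * ((s - 1) * β + 1 + s)) := by first | linarith | nlinarith
      have a6 := lt_of_mul_lt_mul_left a5 (by positivity)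
      have a7 : (s - 1) * ((s - 1) * β) ≤ 1 := by
        have : (s - 1) * β ≤ 1 := by first | linarith | nlinarith
        have h0 : 0 ≤ (s - 1) * β := by positivity
        first | linarith | nlinarith
      first | linarith | nlinarith
    · refine lt_trans ?_ h5
      -- (1-β) μ < μ + e - s d ; d = y + x
      have goal' : (s - 1) * ((1 - β) * μ) < (s - 1) * (μ + e - s * d) := by
        -- s (1+s) y (s-1) ≤ μ ((s-1) β + 1 + s)
        have k1 : (s * (s ^ 2 - 1)) * (d - x) ≤ ((s - 1) * β + 1 + s) * μ := by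
          have q1 : (s * (s ^ 2 - 1)) * (d - x) ≤ (ρ * ((s - 1) * β + 1 + s)) * (d - x) :=
            mul_le_mul_of_nonneg_right hcr.le hypos.le
          have q2 : ((s - 1) * β + 1 + s) * (ρ * (d - x)) ≤ ((s - 1) * β + 1 + s) * μ :=
            mul_le_mul_of_nonneg_left hyρ (by positivity)
          first | linarith | nlinarith
        have k2 : s * (μ + (s - 1) * x) < s * ((s - 1) * (s * (d - x))) :=
          mul_lt_mul_of_pos_left hxy (by linarith)
        first | linarith | nlinarith
      exact lt_of_mul_lt_mul_left goal' ht.le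
    · exfalso
      have a1 : s * d ≤ 2 * ((d - x) + x) := by first | linarith | nlinarith
      linarith

end Pool.Agent.Helper73.TH
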